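import Pool.Agent.H7.GY.Stmts
import Pool.Agent.H46.GU.BDAgen

/-!
# Board gy11, row BDAY: many vertices of small degree
-/

set_option autoImplicit false

open Finset

namespace Pool.GY7

open Pool.Agent.H23.KT Pool.Agent.H46.KW Pool.KQ Pool.GT7 Pool.GU7 Pool.GV7

theorem BDAY_root (x : ℝ) (hx : 0 ≤ x) (n : ℕ) : ∃ g : ℝ, 0 ≤ g ∧ g ^ (n + 1) = x :=
  ⟨x ^ (((n + 1 : ℕ) : ℝ)⁻¹), Real.rpow_nonneg hx _,
    Real.rpow_inv_natCast_pow hx (Nat.succ_ne_zero n)⟩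

theorem BDAY_thm (hSPL : SPLStmt) (hNUB : NUBYStmt) (hNYB : NYBStmt) (hZYG : ZYGStmt)
    (hTTR : TTRStmt) : BDAYStmt := by
  intro p w r hP
  obtain ⟨K₁, hK₁, hN⟩ := hNUB p w r
  have hk := hNYB p w r hP
  have hp0 : (0 : ℝ) ≤ (p : ℝ) := Nat.cast_nonneg _
  have hp2 : (0 : ℝ) < (p : ℝ) + 2 := by linarith
  have hr : r ≤ p + 3 := by
    have := hP.rp
    omega
  have hy0 : 0 ≤ yY p r := by
    unfold yY
    positivity
  have hm0 : 0 ≤ mY p r := by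
    unfold mY
    positivity
  have hkm : ((p : ℝ) + 2) * kY p r = mY p r + 1 + 1 / (8 * ((p : ℝ) + 3) ^ 2) := by
    unfold kY
    rw [mul_div_cancel₀ _ hp2.ne']
  have hk0 : 0 ≤ kY p r := by
    unfold kY
    positivity
  have hkp : 0 ≤ kY p r ^ (w + 1) := pow_nonneg hk0 _
  obtain ⟨g, hg0, hg⟩ := BDAY_root ((kY p r ^ (w + 1) + GY w) / 2) (by linarith) w
  obtain ⟨th, hth0, hth⟩ := BDAY_root (GY w) (by linarith) w
  have hkg : kY p r < g := by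
    refine lt_of_pow_lt_pow_left₀ (w + 1) hg0 ?_
    rw [hg]
    linarith
  have hgth : g ≤ th := by
    refine le_of_not_gt fun h => ?_
    have h1 : th ^ (w + 1) < g ^ (w + 1) := pow_lt_pow_left₀ h hth0 (Nat.succ_ne_zero w)
    rw [hg, hth] at h1
    linarith
  obtain ⟨ε, hε⟩ : ∃ ε : ℝ, ε = ((p : ℝ) + 2) * ((g - kY p r) / 2) := ⟨_, rfl⟩
  have hε0 : 0 < ε := by
    rw [hε]
    exact mul_pos hp2 (by linarith)
  have hε2 : 2 * ε = ((p : ℝ) + 2) * g - ((p : ℝ) + 2) * kY p r := by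
    rw [hε]
    ring
  have hq : 0 ≤ 1 / (8 * ((p : ℝ) + 3) ^ 2) := by positivity
  have hgth' : ((p : ℝ) + 2) * g ≤ ((p : ℝ) + 2) * th := mul_le_mul_of_nonneg_left hgth hp2.le
  obtain ⟨a₁, ha₁⟩ := exists_nat_ge ((r : ℝ) / ε)
  obtain ⟨a₂, ha₂⟩ := hN ((kY p r ^ (w + 1) + GY w) / 2) (by linarith)
  obtain ⟨K, hK, hmain⟩ := BDA_gen hSPL hZYG hTTR p w r (w + 2) (mY p r + ε) th g hr
    (by linarith) hg0 a₁ (fun a ha => by
      have h1 : (r : ℝ) / ε ≤ a := ha₁.trans (by exact_mod_cast ha)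
      rw [div_le_iff₀ hε0] at h1
      have h2 : (mY p r + ε + 1 + 1 / (8 * ((p : ℝ) + 3) ^ 2)) * a =
          (((p : ℝ) + 2) * kY p r) * a + ε * a := by
        rw [hkm]
        ring
      have h3 : ((p : ℝ) + 2) * (g * a) = (((p : ℝ) + 2) * kY p r) * a + ε * a + a * ε := by
        linear_combination (-(a : ℝ)) * hε2
      rw [h2, h3]
      linarith) K₁ hK₁ a₂ (fun a ha n hn => by
      obtain ⟨h1, h2⟩ := ha₂ a ha n hn
      rw [mul_pow, mul_pow, hth, hg]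
      exact ⟨h1, h2⟩)
  refine ⟨K, hK, fun δ C hδ => ?_⟩
  obtain ⟨a₀, ha₀⟩ := hmain δ C hδ
  obtain ⟨a₃, ha₃⟩ := exists_nat_ge (C / ε)
  refine ⟨max a₀ a₃, ?_⟩
  intro a ha V _ _ G hG z A hA hAs
  refine ha₀ a ((le_max_left _ _).trans ha) G hG z A hA ?_
  intro v hv
  obtain ⟨e, P, U, h1, h2, h3, h4⟩ := hAs v hv
  refine ⟨e, P, U, h1, h2, h3, h4.trans ?_⟩
  have h5 : C / ε ≤ a := ha₃.trans (by exact_mod_cast (le_max_right _ _).trans ha)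
  rw [div_le_iff₀ hε0] at h5
  linarith

end Pool.GY7
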